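import Mathlib

namespace Pool.Agent.Results.MP_73128c_co.K34

open SimpleGraph Finset

/-- the card `G - v` -/
def card {V : Type} (G : SimpleGraph V) (v : V) : SimpleGraph {w | w ≠ v} := G.induce {w | w ≠ v}

/-- number of isomorphism types of cards -/
noncomputable def types {V : Type} (G : SimpleGraph V) : ℕ :=
  Nat.card (Quot fun u v : V => Nonempty (card G u ≃g card G v))

/-- number of orbits of `Aut(G)` on the vertices -/
noncomputable def orbits {V : Type} (G : SimpleGraph V) : ℕ :=
  Nat.card (Quot fun u v : V => ∃ φ : G ≃g G, φ u = v)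

section gen
variable {n : ℕ}

theorem card_quot {k : ℕ} (r : Fin n → Fin n → Prop) (c : Fin n → Fin k)
    (hs : Function.Surjective c) (h : ∀ u v, r u v ↔ c u = c v) : Nat.card (Quot r) = k := by
  rw [← Nat.card_fin k]
  refine Nat.card_congr (Equiv.ofBijective (Quot.lift c fun a b h' => (h a b).1 h') ⟨?_, ?_⟩)
  · rintro ⟨a⟩ ⟨b⟩ e
    exact Quot.sound ((h a b).2 e)
  · intro i
    obtain ⟨a, rfl⟩ := hs i
    exact ⟨Quot.mk _ a, rfl⟩

theorem lt_quot {k : ℕ} {β : Type} (r : Fin n → Fin n → Prop) (f : Fin n → β)
    (h : ∀ u v, r u v → f u = f v) (g : Fin (k + 1) → Fin n)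
    (hg : Function.Injective (f ∘ g)) : k < Nat.card (Quot r) := by
  have : Function.Injective fun i => Quot.mk r (g i) := fun i j e =>
    hg (congrArg (Quot.lift f h) e)
  have := Nat.card_le_card_of_injective _ this
  rw [Nat.card_fin] at this
  omega

def R (G : SimpleGraph (Fin n)) (u v : Fin n) : Prop := Nonempty (card G u ≃g card G v)

theorem R.symm {G : SimpleGraph (Fin n)} {u v : Fin n} (h : R G u v) : R G v u :=
  ⟨h.some.symm⟩
theorem R.trans {G : SimpleGraph (Fin n)} {u v w : Fin n} (h : R G u v) (h' : R G v w) :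
    R G u w := ⟨h.some.trans h'.some⟩
theorem R.rfl {G : SimpleGraph (Fin n)} {u : Fin n} : R G u u := ⟨Iso.refl⟩

theorem ofPerm (G : SimpleGraph (Fin n)) (p : Fin n → Fin n) (hp : Function.Injective p)
    (u : Fin n) (h : ∀ a b, a ≠ u → b ≠ u → (G.Adj (p a) (p b) ↔ G.Adj a b)) : R G u (p u) :=
  ⟨⟨(Equiv.ofBijective p (Finite.injective_iff_bijective.1 hp)).subtypeEquiv
      fun _ => hp.ne_iff.symm, fun {a b} => h a.1 b.1 a.2 b.2⟩⟩

theorem iter (G : SimpleGraph (Fin n)) (p : Fin n → Fin n) (h : ∀ u, R G u (p u)) (i : ℕ)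
    (u : Fin n) : R G u (p^[i] u) := by
  induction i with
  | zero => exact R.rfl
  | succ i ih => rw [Function.iterate_succ_apply']; exact ih.trans (h _)

abbrev Mat (n : ℕ) := Fin n → Fin n → ℕ

def M (G : SimpleGraph (Fin n)) [DecidableRel G.Adj] (u : Fin n) : Mat n :=
  fun a b => if a ≠ u ∧ b ≠ u ∧ G.Adj a b then 1 else 0

def A (G : SimpleGraph (Fin n)) [DecidableRel G.Adj] : Mat n :=
  fun a b => if G.Adj a b then 1 else 0

theorem toPerm (G : SimpleGraph (Fin n)) [DecidableRel G.Adj] {u v : Fin n} (h : R G u v) :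
    ∃ e : Equiv.Perm (Fin n), ∀ a b, M G v (e a) (e b) = M G u a b := by
  obtain ⟨φ⟩ := h
  let p : Fin n → Fin n := fun a => if h : a = u then v else (φ ⟨a, h⟩).1
  have p1 : p u = v := dif_pos rfl
  have p2 : ∀ a (h : a ≠ u), p a = (φ ⟨a, h⟩).1 := fun a h => dif_neg h
  have p3 : ∀ a, a ≠ u → p a ≠ v := fun a h => by rw [p2 a h]; exact (φ ⟨a, h⟩).2
  have hp : Function.Injective p := by
    intro a b e
    by_cases ha : a = u <;> by_cases hb : b = u
    · rw [ha, hb]
    · rw [ha, p1] at e; exact absurd e.symm (p3 b hb)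
    · rw [hb, p1] at e; exact absurd e (p3 a ha)
    · rw [p2 a ha, p2 b hb] at e
      exact congrArg Subtype.val (φ.injective (Subtype.ext e))
  refine ⟨Equiv.ofBijective p (Finite.injective_iff_bijective.1 hp), fun a b => ?_⟩
  change M G v (p a) (p b) = _
  by_cases ha : a = u
  · simp [M, ha, p1]
  by_cases hb : b = u
  · simp [M, hb, p1]
  have : G.Adj (p a) (p b) ↔ G.Adj a b := by
    rw [p2 a ha, p2 b hb]; exact φ.map_rel_iff (a := ⟨a, ha⟩) (b := ⟨b, hb⟩)
  simp [M, ha, hb, p3 a ha, p3 b hb, this]

def d (B : Mat n) (a : Fin n) : ℕ := ∑ b, B a b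
def P1 (B : Mat n) : ℕ := ∑ a, d B a ^ 2
def P2 (B : Mat n) : ℕ := ∑ a, ∑ b, B a b * d B a ^ 2 * d B b ^ 2
def Q1 (B : Mat n) (D : Fin n → ℕ) (x : Fin n) : ℕ := ∑ y, D y * (∑ z, B x z * B y z * D z) ^ 2

theorem d_inv {B C : Mat n} {e : Equiv.Perm (Fin n)} (h : ∀ a b, C (e a) (e b) = B a b)
    (a : Fin n) : d C (e a) = d B a := by
  simp only [d, ← h]; exact (Equiv.sum_comp e _).symm

theorem P1_inv {B C : Mat n} {e : Equiv.Perm (Fin n)} (h : ∀ a b, C (e a) (e b) = B a b) :
    P1 B = P1 C := by
  simp only [P1, ← d_inv h]; exact Equiv.sum_comp e fun a => d C a ^ 2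

theorem P2_inv {B C : Mat n} {e : Equiv.Perm (Fin n)} (h : ∀ a b, C (e a) (e b) = B a b) :
    P2 B = P2 C := by
  simp only [P2, ← d_inv h, ← h]
  rw [← Equiv.sum_comp e fun a => ∑ b, C a b * d C a ^ 2 * d C b ^ 2]
  exact sum_congr rfl fun a _ => Equiv.sum_comp e fun b => C (e a) b * d C (e a) ^ 2 * d C b ^ 2

theorem Q1_inv {B : Mat n} {e : Equiv.Perm (Fin n)} (h : ∀ a b, B (e a) (e b) = B a b)
    (x : Fin n) : Q1 B (d B) x = Q1 B (d B) (e x) := by
  simp only [Q1]
  rw [← Equiv.sum_comp e fun y => d B y * (∑ z, B (e x) z * B y z * d B z) ^ 2]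
  refine sum_congr rfl fun y _ => ?_
  rw [← Equiv.sum_comp e fun z => B (e x) z * B (e y) z * d B z]
  simp only [h, d_inv h]

theorem A_inv (G : SimpleGraph (Fin n)) [DecidableRel G.Adj] (φ : G ≃g G) (a b : Fin n) :
    A G (φ.toEquiv a) (φ.toEquiv b) = A G a b := by
  have : G.Adj (φ.toEquiv a) (φ.toEquiv b) ↔ G.Adj a b := φ.map_rel_iff
  simp only [A, this]

theorem autR (G : SimpleGraph (Fin n)) (φ : G ≃g G) (u : Fin n) : R G u (φ u) :=
  ofPerm G φ φ.injective u fun _ _ _ _ => φ.map_rel_iff

theorem conn (G : SimpleGraph (Fin (n + 1))) (h : ∀ v, v = 0 ∨ ∃ w < v, G.Adj w v) :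
    G.Connected := by
  have : ∀ v, G.Reachable 0 v := by
    intro v
    induction v using WellFoundedLT.induction with
    | _ v ih =>
      rcases h v with rfl | ⟨w, h1, h2⟩
      · rfl
      · exact (ih w h1).trans h2.reachable
  exact ⟨fun u v => (this u).symm.trans (this v)⟩

theorem cls {k : ℕ} (G : SimpleGraph (Fin n)) (c : Fin n → Fin k) (r : Fin k → Fin n)
    (h1 : ∀ u, R G u (r (c u))) (h2 : ∀ i j, R G (r i) (r j) → i = j) (u v : Fin n) :
    R G u v ↔ c u = c v :=
  ⟨fun h => h2 _ _ (((h1 u).symm.trans h).trans (h1 v)),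
    fun h => (h1 u).trans (h ▸ (h1 v).symm)⟩

def bit (N : ℕ) (a b : Fin n) : Bool := N.testBit (64 * a + b)

def Gr (n N : ℕ) (h : ∀ a b : Fin n, bit N a b = true → bit N b a = true)
    (h' : ∀ a : Fin n, ¬ bit N a a = true) : SimpleGraph (Fin n) :=
  ⟨fun a b => bit N a b = true, ⟨h⟩, ⟨h'⟩⟩

def pm (n N : ℕ) (a : Fin (n + 1)) : Fin (n + 1) := Fin.ofNat _ (N >>> (6 * a.1) % 64)
def cl (k N : ℕ) (a : Fin n) : Fin (k + 1) := Fin.ofNat _ (N >>> (2 * a.1) % 4)

end gen

def GK : SimpleGraph (Fin 23) := Gr 23 24740904387505801875308802648757364527310334810337158248907107682338888695542602164221957671147106184115517914273036776409751775508469257135210158736003399430144422836428747519718630448580407391499689466843337997438746831922210083976360607882966125849105947825882358380276465399760123990227496310580687571088669495838291945846102960377048101062555636217930455481371626711878054283921838398656658339016781416798081632230613446557950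
  (by decide +kernel) (by decide +kernel)
instance : DecidableRel GK.Adj := fun a b => inferInstanceAs (Decidable (bit _ a b = true))
def sK := pm 22 121332247603119063792376094484079057334656
def wK := pm 22 1462218001764183328226392169151011299990
def cK : Fin 23 → Fin 4 := cl 3 17298970269012
def rK : Fin 4 → Fin 23 := ![0, 1, 8, 10]

theorem clsK (u v : Fin 23) : R GK u v ↔ cK u = cK v := by
  refine cls GK cK rK (fun u => ?_) (fun i j h => ?_) u v
  · have hs : ∀ u, R GK u (sK u) := fun u => ofPerm GK sK (by decide +kernel) u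
      fun a b _ _ => (by decide +kernel : ∀ a b, GK.Adj (sK a) (sK b) ↔ GK.Adj a b) a b
    have hw : R GK 22 (wK 22) := ofPerm GK wK (by decide +kernel) 22 (by decide +kernel)
    rcases (by decide +kernel : ∀ u, (u = 22 ∧ wK 22 = rK (cK u)) ∨
      ∃ i < 7, sK^[i] u = rK (cK u)) u with ⟨h, h'⟩ | ⟨i, -, h⟩
    · rw [← h', h]; exact hw
    · rw [← h]; exact iter GK sK hs i u
  · obtain ⟨e, he⟩ := toPerm GK h
    have := P2_inv he
    have t : ∀ i, P2 (M GK (rK i)) = ![238588, 244552, 261470, 244560] i := by decide +kernel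
    rw [t, t] at this
    clear h he
    revert i j
    decide

theorem resK : GK.Connected ∧ types GK = 4 ∧ 4 < orbits GK := by
  refine ⟨conn GK (by decide +kernel), card_quot _ cK (by decide +kernel) clsK, ?_⟩
  refine lt_quot _ (fun x => (cK x, ∑ y, A GK x y * (cK y).1)) ?_ ![0, 1, 8, 10, 22]
    (by decide +kernel)
  rintro u v ⟨φ, rfl⟩
  have hc : ∀ u, cK u = cK (φ u) := fun u => (clsK _ _).1 (autR GK φ u)
  refine Prod.ext (hc u) ?_
  simp only
  rw [← Equiv.sum_comp φ.toEquiv fun y => A GK (φ u) y * (cK y).1]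
  refine sum_congr rfl fun y _ => ?_
  rw [← A_inv GK φ u y, hc y]
  rfl

def GS : SimpleGraph (Fin 63) := Gr 63 4451357197709456678408738275212252529228663653410939646507897162827236547430073356416342705422512036931268844639259535241737726482371178995023182491762337135824407624026526232473176958834063664899714277010616319513248264779154901908290461458047752045041199559661919599083938503295635311751332400921360122825602123933900752845206959344215886321861664673938742610615084281619019328769756107789095297578655677762802623632183651858651964570788322472268412878420313953167671237069098193676039816139426470914346473776123496211851939324132633161015418503226249455867092747155084019707118831302675731139547642716677266581918409651367360629560056897947405255101191074154249307037280173417976841603740528620397856798451356939226619161290367572751256010496411514687408070598809911100053867294876846508273641573738970939363414728409665112041798247808059634672939314384939781445672686059790799401475405569922667417113554261509263500420742543910701783773783208651599456017835750827297583371926350017848608219300367109805233015029853982830737307251284769871600020047217574877867554668529527569973645979715476047651324940268720583905163857226113876291236991992071870938060624851272208504715935852455448877643303446015965835329534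
  (by decide +kernel) (by decide +kernel)
instance : DecidableRel GS.Adj := fun a b => inferInstanceAs (Decidable (bit _ a b = true))
def sS := pm 62 548156786135950168775394037882348126187504006433256711844743703695119688491041653104582252702373446129662509529838
def tS := pm 62 447554669450801219535385722628278815246757652344364573303231880795203309175354361712302527861952171394938827448384
def w1 := pm 62 457472192235198733843443857384678725507628698321038260362707696264890317960038718037794273087722896094266500059138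
def w2 := pm 62 40910169367411793619131188923860791825545442405128998021221877642783224070820731760091040445277435313838819525045
def cS : Fin 63 → Fin 3 := cl 2 2867904397112044659459139932598741652
def rS : Fin 3 → Fin 63 := ![0, 1, 3]

theorem hs : ∀ u, R GS u (sS u) := fun u => ofPerm GS sS (by decide +kernel) u
  fun a b _ _ => (by decide +kernel : ∀ a b, GS.Adj (sS a) (sS b) ↔ GS.Adj a b) a b
theorem ht : ∀ u, R GS u (tS u) := fun u => ofPerm GS tS (by decide +kernel) u
  fun a b _ _ => (by decide +kernel : ∀ a b, GS.Adj (tS a) (tS b) ↔ GS.Adj a b) a b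
theorem hw1 : R GS 2 (w1 2) := ofPerm GS w1 (by decide +kernel) 2 (by decide +kernel)
theorem hw2 : R GS 4 (w2 4) := ofPerm GS w2 (by decide +kernel) 4 (by decide +kernel)

theorem clsS (u v : Fin 63) : R GS u v ↔ cS u = cS v := by
  refine cls GS cS rS (fun u => ?_) (fun i j h => ?_) u v
  · obtain ⟨j, -, i, -, h⟩ := (by decide +kernel : ∀ u, ∃ j < 3, ∃ i < 7,
      sS^[i] (tS^[j] u) = rS (cS u) ∨ (sS^[i] (tS^[j] u) = 2 ∧ w1 2 = rS (cS u)) ∨
        (sS^[i] (tS^[j] u) = 4 ∧ w2 4 = rS (cS u))) u
    have h0 := (iter GS tS ht j u).trans (iter GS sS hs i _)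
    rcases h with h | ⟨h, h'⟩ | ⟨h, h'⟩
    · rw [← h]; exact h0
    · rw [← h']; rw [h] at h0; exact h0.trans hw1
    · rw [← h']; rw [h] at h0; exact h0.trans hw2
  · obtain ⟨e, he⟩ := toPerm GS h
    have := P1_inv he
    have t : ∀ i, P1 (M GS (rS i)) = ![11400, 11456, 11402] i := by decide +kernel
    rw [t, t] at this
    clear h he
    revert i j
    decide

theorem resS : GS.Connected ∧ types GS = 3 ∧ 3 < orbits GS := by
  refine ⟨conn GS (by decide +kernel), card_quot _ cS (by decide +kernel) clsS, ?_⟩
  have hd : d (A GS) = fun a => if cS a = 1 then 13 else 14 :=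
    funext (by decide +kernel)
  refine lt_quot _ (Q1 (A GS) (d (A GS))) ?_ ![0, 1, 3, 4] (by rw [hd]; decide +kernel)
  rintro u v ⟨φ, rfl⟩
  exact Q1_inv (A_inv GS φ) u

theorem result : ∀ k ∈ ({3, 4} : Set ℕ), ∃ (n : ℕ) (G : SimpleGraph (Fin n)),
    G.Connected ∧ types G = k ∧ k < orbits G := by
  rintro k (rfl | rfl)
  · exact ⟨63, GS, resS⟩
  · exact ⟨23, GK, resK⟩

end Pool.Agent.Results.MP_73128c_co.K34
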